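import Pool.Agent.Q147.CantorReal

/-!
# MP_04fd10_lc: a countable Borel equivalence relation with a compact action realization and without
a compact action realization on the Cantor space
-/

namespace Pool.Agent.Results.MP_04fd10_lc.FiniteClasses

open Set Topology Pool.Agent.Q147.CAR

/-- a countable Borel equivalence relation -/
structure IsCBER {X : Type} [MeasurableSpace X] (E : X → X → Prop) : Prop where
  equiv : Equivalence E
  borel : MeasurableSet {p : X × X | E p.1 p.2}
  countable : ∀ x, {y | E x y}.Countable

/-- `E` is isomorphic, by a Borel bijection, to the orbit equivalence relation of a continuous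
action of a countable group on the space `K` -/
def RealizedOn {X : Type} [MeasurableSpace X] (E : X → X → Prop)
    (K : Type) [TopologicalSpace K] : Prop :=
  ∃ (G : Type) (_ : Group G) (_ : Countable G) (_ : MulAction G K),
    (∀ g : G, Continuous fun x : K => g • x) ∧
    ∃ f : X → K, Function.Bijective f ∧ @Measurable X K _ (borel K) f ∧
      ∀ x y, E x y ↔ ∃ g : G, f y = g • f x

/-- `E` has a compact action realization -/
def CompactRealization {X : Type} [MeasurableSpace X] (E : X → X → Prop) : Prop :=
  ∃ (K : Type) (_ : TopologicalSpace K), CompactSpace K ∧ TopologicalSpace.MetrizableSpace K ∧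
    RealizedOn E K

/-- the underlying space of the example -/
abbrev XX (k l : ℕ) : Type := Fin k ⊕ ((ℕ → Bool) × Fin l)

/-- one class with `k` elements, and continuum many classes with `l` elements -/
def EE (k l : ℕ) : XX k l → XX k l → Prop
  | Sum.inl _, Sum.inl _ => True
  | Sum.inr p, Sum.inr q => p.1 = q.1
  | _, _ => False

theorem EE_equiv (k l : ℕ) : Equivalence (EE k l) := by
  refine ⟨?_, ?_, ?_⟩
  · rintro (x | x) <;> simp [EE]
  · rintro (x | x) (y | y) <;> simp only [EE, imp_self]
    exact fun h => h.symm
  · rintro (x | x) (y | y) (z | z) <;> simp only [EE, imp_self, implies_true, false_imp_iff]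
    exact fun h h' => h.trans h'

theorem EE_closed (k l : ℕ) : IsClosed {p : XX k l × XX k l | EE k l p.1 p.2} := by
  -- the relation is the equality of a continuous function into a Hausdorff space
  have key : ∀ p q : XX k l, EE k l p q ↔
      Sum.elim (fun _ : Fin k => (Sum.inl () : Unit ⊕ (ℕ → Bool))) (fun p => Sum.inr p.1) p =
      Sum.elim (fun _ : Fin k => (Sum.inl () : Unit ⊕ (ℕ → Bool))) (fun p => Sum.inr p.1) q := by
    rintro (p | p) (q | q) <;> simp [EE]
  have hcont : Continuous fun p : XX k l =>
      Sum.elim (fun _ : Fin k => (Sum.inl () : Unit ⊕ (ℕ → Bool))) (fun p => Sum.inr p.1) p := by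
    refine Continuous.sumElim continuous_const (continuous_inr.comp continuous_fst)
  simp only [key]
  exact isClosed_eq (hcont.comp continuous_fst) (hcont.comp continuous_snd)

/-- the group of the compact realization -/
abbrev GG (k l : ℕ) : Type := Equiv.Perm (Fin k) × Equiv.Perm (Fin l)

instance ggAction (k l : ℕ) : MulAction (GG k l) (XX k l) where
  smul g x := Sum.map g.1 (Prod.map id g.2) x
  one_smul x := by
    rcases x with x | x <;> rfl
  mul_smul g h x := by
    rcases x with x | x <;> rfl

theorem smul_inl {k l : ℕ} (g : GG k l) (i : Fin k) :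
    g • (Sum.inl i : XX k l) = Sum.inl (g.1 i) := rfl

theorem smul_inr {k l : ℕ} (g : GG k l) (p : (ℕ → Bool) × Fin l) :
    g • (Sum.inr p : XX k l) = Sum.inr (p.1, g.2 p.2) := rfl

/-- **Main theorem.** For all positive `k` and `l` such that `k` does not divide `l` there is a
countable Borel equivalence relation `E` on an uncountable standard Borel space with one class with
exactly `k` elements, with all the other classes with exactly `l` elements, such that `E` has a
compact action realization and has no compact action realization on the Cantor space. -/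
theorem result (k l : ℕ) (hk : 0 < k) (hkl : ¬ k ∣ l) :
    ∃ (X : Type) (_ : MeasurableSpace X) (_ : StandardBorelSpace X) (_ : Uncountable X)
      (E : X → X → Prop), IsCBER E ∧
      (∃ x₀ : X, {y | E x₀ y}.ncard = k ∧ ∀ x, ¬ E x₀ x → {y | E x y}.ncard = l) ∧
      CompactRealization E ∧ ¬ RealizedOn E (ℕ → Bool) := by
  have hl : 0 < l := by
    rcases Nat.eq_zero_or_pos l with rfl | h
    · exact (hkl (dvd_zero k)).elim
    · exact h
  have : NeZero k := ⟨hk.ne'⟩
  have : NeZero l := ⟨hl.ne'⟩
  let mX : MeasurableSpace (XX k l) := borel _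
  have bX : BorelSpace (XX k l) := ⟨rfl⟩
  have hunc : Uncountable (XX k l) := by
    have h1 : Function.Injective fun x : ℕ → Bool => (Sum.inr (x, 0) : XX k l) := by
      intro x y hxy
      simpa using hxy
    have : Uncountable (ℕ → Bool) := by
      rw [← Cardinal.aleph0_lt_mk_iff]
      simpa using Cardinal.cantor Cardinal.aleph0
    exact h1.uncountable
  have hsb : StandardBorelSpace (XX k l) := inferInstance
  -- the classes
  have hcl : ∀ i : Fin k, {y | EE k l (Sum.inl i) y} = Set.range (Sum.inl : Fin k → XX k l) := by
    intro i
    ext (y | y) <;> simp [EE]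
  have hcr : ∀ p : (ℕ → Bool) × Fin l, {y | EE k l (Sum.inr p) y} =
      Set.range (fun j : Fin l => (Sum.inr (p.1, j) : XX k l)) := by
    intro p
    ext (y | y)
    · simp [EE]
    · simp only [EE, Set.mem_ofPred_eq, Set.mem_range, Sum.inr.injEq]
      constructor
      · intro h
        exact ⟨y.2, by rw [h]⟩
      · rintro ⟨j, rfl⟩
        rfl
  have hnl : ∀ i : Fin k, {y | EE k l (Sum.inl i) y}.ncard = k := by
    intro i
    rw [hcl, ← Set.image_univ, Set.ncard_image_of_injective _ Sum.inl_injective, Set.ncard_univ]
    simp
  have hnr : ∀ p : (ℕ → Bool) × Fin l, {y | EE k l (Sum.inr p) y}.ncard = l := by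
    intro p
    rw [hcr, ← Set.image_univ, Set.ncard_image_of_injective, Set.ncard_univ]
    · simp
    · intro i j hij
      simpa using hij
  refine ⟨XX k l, mX, hsb, hunc, EE k l, ⟨EE_equiv k l, (EE_closed k l).measurableSet, ?_⟩,
    ⟨Sum.inl 0, hnl 0, ?_⟩, ?_, ?_⟩
  · rintro (i | p)
    · rw [hcl]
      exact Set.countable_range _
    · rw [hcr]
      exact Set.countable_range _
  · rintro (i | p) h
    · exact (h trivial).elim
    · exact hnr p
  · refine ⟨XX k l, inferInstance, inferInstance, inferInstance, GG k l, inferInstance,
      inferInstance, inferInstance, ?_, id, Function.bijective_id, measurable_id, ?_⟩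
    · intro g
      change Continuous fun x : XX k l => Sum.map g.1 (Prod.map id g.2) x
      exact Continuous.sumMap continuous_of_discreteTopology
        (continuous_id.prodMap continuous_of_discreteTopology)
    · rintro (i | p) (j | q)
      · simp only [EE, id_eq, smul_inl, Sum.inl.injEq, true_iff]
        exact ⟨(Equiv.swap i j, 1), by simp⟩
      · simp [EE, smul_inl]
      · simp [EE, smul_inr]
      · simp only [EE, id_eq, smul_inr, Sum.inr.injEq]
        constructor
        · intro h
          refine ⟨(1, Equiv.swap p.2 q.2), ?_⟩
          simp [h]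
        · rintro ⟨g, hg⟩
          rw [hg]
  · rintro ⟨G, _, _, _, hc, f, hf, -, hE⟩
    have horb : ∀ x : XX k l, MulAction.orbit G (f x) = f '' {y | EE k l x y} := by
      intro x
      ext c
      constructor
      · rintro ⟨g, rfl⟩
        obtain ⟨y, hy⟩ := hf.2 (g • f x)
        exact ⟨y, (hE x y).2 ⟨g, hy⟩, hy⟩
      · rintro ⟨y, hy, rfl⟩
        obtain ⟨g, hg⟩ := (hE x y).1 hy
        exact ⟨g, hg.symm⟩
    have hcard : ∀ x : XX k l, (MulAction.orbit G (f x)).ncard = {y | EE k l x y}.ncard := by
      intro x
      rw [horb, Set.ncard_image_of_injective _ hf.1]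
    have hfin : ∀ x : XX k l, (MulAction.orbit G (f x)).Finite := by
      rintro (i | p)
      · rw [horb, hcl]
        exact (Set.finite_range _).image _
      · rw [horb, hcr]
        exact (Set.finite_range _).image _
    apply hkl
    have h1 := dvd_of_orbits (l := l) hc (hfin (Sum.inl 0)) ?_ (fun U hU => cantor_infinite _ hU)
    · rwa [hcard, hnl] at h1
    · intro y hy
      obtain ⟨x, rfl⟩ := hf.2 y
      refine ⟨hfin x, ?_⟩
      rw [hcard]
      rcases x with i | p
      · exfalso
        apply hy
        rw [horb]
        exact ⟨Sum.inl i, trivial, rfl⟩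
      · exact hnr p

end Pool.Agent.Results.MP_04fd10_lc.FiniteClasses
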